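import Mathlib

set_option autoImplicit false

namespace Pool.Agent.Results.MP_2eb2b4_co.Counter

/-- `x` is of the form `2^i 3^j`. -/
def IsA (x : ℕ) : Prop := ∃ i j : ℕ, x = 2 ^ i * 3 ^ j

/-- the first `n` numbers of the form `2^i 3^j`. -/
def An (n : ℕ) : Set ℕ := {x | IsA x ∧ {y | IsA y ∧ y ≤ x}.ncard ≤ n}

/-- the L-hitting number. -/
noncomputable def f (n : ℕ) : ℕ :=
  sInf {k | ∃ H : Finset ℕ, (H : Set ℕ) ⊆ An n ∧ H.card = k ∧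
    ∀ x, x ∈ An n → 2 * x ∈ An n → 3 * x ∈ An n → x ∈ H ∨ 2 * x ∈ H ∨ 3 * x ∈ H}

def B (n k : ℕ) : Set ℕ :=
  {x | x ∈ An n ∧ ∃ i j : ℕ, x = 2 ^ i * 3 ^ j ∧ (i : ℤ) - j ≡ k [ZMOD 3]}

def Bt (n k : ℕ) : Set ℕ :=
  {x | x ∈ An n ∧ ∃ i : ℕ, 1 ≤ i ∧ x = 2 ^ i ∧ i ≡ k [MOD 3] ∧ 2 ^ (i - 1) * 3 ∉ An n}

noncomputable def h (n : ℕ) : ℕ :=
  min ((B n 0).ncard - (Bt n 0).ncard)
    (min ((B n 1).ncard - (Bt n 1).ncard) ((B n 2).ncard - (Bt n 2).ncard))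

def L : Finset ℕ := {1, 2, 3, 4, 6, 8, 9, 12, 16, 18, 24, 27, 32, 36, 48, 54, 64, 72, 81, 96, 108,
  128, 144, 162, 192, 216, 243, 256, 288, 324, 384, 432, 486, 512, 576, 648, 729, 768, 864, 972,
  1024, 1152, 1296, 1458, 1536}

lemma bd {i j : ℕ} (h : 2 ^ i * 3 ^ j ≤ 1728) : i < 11 ∧ j < 7 := by
  have h1 : 0 < 2 ^ i := by positivity
  have h2 : 0 < 3 ^ j := by positivity
  constructor
  · by_contra hc
    have : 2 ^ 11 ≤ 2 ^ i := Nat.pow_le_pow_right (by norm_num) (by omega)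
    nlinarith
  · by_contra hc
    have : 3 ^ 7 ≤ 3 ^ j := Nat.pow_le_pow_right (by norm_num) (by omega)
    nlinarith

lemma LA : ∀ x ∈ insert 1728 L, x ≤ 1728 ∧ ∃ i < 11, ∃ j < 7, x = 2 ^ i * 3 ^ j := by
  decide +kernel

lemma AL {x : ℕ} (h : IsA x) (h2 : x < 1728) : x ∈ L := by
  obtain ⟨i, j, rfl⟩ := h
  obtain ⟨a, b⟩ := bd h2.le
  have : ∀ i < 11, ∀ j < 7, 2 ^ i * 3 ^ j < 1728 → 2 ^ i * 3 ^ j ∈ L := by decide +kernel
  exact this i a j b h2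

lemma An45 (x : ℕ) : x ∈ An 45 ↔ x ∈ L := by
  constructor
  · rintro ⟨h1, h2⟩
    by_contra hx
    have h3 : 1728 ≤ x := not_lt.1 fun h => hx (AL h1 h)
    have h4 : ((insert 1728 L : Finset ℕ) : Set ℕ) ⊆ {y | IsA y ∧ y ≤ x} := by
      intro y hy
      obtain ⟨a, i, _, j, _, e⟩ := LA y hy
      exact ⟨⟨i, j, e⟩, a.trans h3⟩
    have h5 := (Set.ncard_le_ncard h4 ((Set.finite_Iic x).subset fun y hy => hy.2)).trans h2
    rw [Set.ncard_coe_finset] at h5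
    revert h5
    decide +kernel
  · intro hx
    obtain ⟨a, i, _, j, _, e⟩ := LA x (Finset.mem_insert_of_mem hx)
    refine ⟨⟨i, j, e⟩, ?_⟩
    have h1 : ∀ x ∈ L, x < 1728 := by decide +kernel
    have h4 : {y | IsA y ∧ y ≤ x} ⊆ (L : Set ℕ) := fun y hy => AL hy.1 (hy.2.trans_lt (h1 x hx))
    refine (Set.ncard_le_ncard h4).trans ?_
    rw [Set.ncard_coe_finset]
    decide +kernel

lemma B45 (k : ℕ) : B 45 k = (L.filter fun x => ∃ i : ℕ, i < 11 ∧ ∃ j : ℕ, j < 7 ∧ x = 2 ^ i * 3 ^ j ∧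
    (i : ℤ) - j ≡ k [ZMOD 3] : Finset ℕ) := by
  ext x
  simp only [B, An45, Set.mem_setOf_eq, Finset.coe_filter]
  refine and_congr_right fun hx => ⟨?_, fun ⟨i, _, j, _, e⟩ => ⟨i, j, e⟩⟩
  rintro ⟨i, j, e, h⟩
  obtain ⟨a, b⟩ := bd (e ▸ (LA x (Finset.mem_insert_of_mem hx)).1)
  exact ⟨i, a, j, b, e, h⟩

lemma Bt45 (k : ℕ) : Bt 45 k = (L.filter fun x => ∃ i < 11, 1 ≤ i ∧ x = 2 ^ i ∧ i ≡ k [MOD 3] ∧
    2 ^ (i - 1) * 3 ∉ L : Finset ℕ) := by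
  ext x
  simp only [Bt, An45, Set.mem_setOf_eq, Finset.coe_filter]
  refine and_congr_right fun hx => ⟨?_, fun ⟨i, _, e⟩ => ⟨i, e⟩⟩
  rintro ⟨i, h1, e, h⟩
  obtain ⟨a, -⟩ := bd (i := i) (j := 0)
    (by simpa [← e] using (LA x (Finset.mem_insert_of_mem hx)).1)
  exact ⟨i, a, h1, e, h⟩

theorem result : ∃ n, 1 ≤ n ∧ f n < h n := by
  refine ⟨45, by norm_num, lt_of_le_of_lt (b := 14) (Nat.sInf_le
    ⟨{3, 4, 18, 24, 32, 81, 108, 144, 192, 384, 486, 512, 648, 864}, fun x hx => ?_, by decide,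
      fun x => ?_⟩) ?_⟩
  · rw [An45]
    revert x
    show ∀ x ∈ ({3, 4, 18, 24, 32, 81, 108, 144, 192, 384, 486, 512, 648, 864} : Finset ℕ), x ∈ L
    decide +kernel
  · simp only [An45]
    intro hx
    revert x
    decide +kernel
  · simp only [h, B45, Bt45, Set.ncard_coe_finset]
    decide +kernel

end Pool.Agent.Results.MP_2eb2b4_co.Counter
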